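import Mathlib
import Pool.Agent.Work.MP_664517_co.Defs
import Pool.Agent.Work.MP_664517_co.Proof

namespace Pool.Agent.Results.MP_664517_co.FiniteKpFree

open Pool.Agent.Work.MP_664517_co

/-- For every `p` there are only finitely many pairs `(n, G)` with `G` a `K_p`-free
3-total-domination edge-critical graph on the vertex set `Fin n`. -/
theorem result (p : ℕ) :
    {G : Σ n : ℕ, SimpleGraph (Fin n) | ThreeTEC G.2 ∧ G.2.CliqueFree p}.Finite :=
  finite_main p

end Pool.Agent.Results.MP_664517_co.FiniteKpFree
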